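import Pool.Agent.Q205.EB.Code

set_option autoImplicit false

/-!
# The inverse of the isomorphism is primitive recursive
-/

namespace Pool.Agent.Q205.EB

open Nat

/-- coding of a finite set below `N` -/
theorem exists_mem_code (N : ℕ) (D : Finset ℕ) (hD : ∀ t ∈ D, t ≤ N) :
    ∃ p ≤ (1 + (N + 1) * (N + 1)!) ^ (N + 1), ∀ t, Mem p (N + 1)! N t ↔ t ∈ D := by
  set q := (N + 1)! with hq
  have hq0 : 0 < q := Nat.factorial_pos _
  set F : ℕ → ℕ := fun t => 1 + (t + 1) * q with hF
  refine ⟨∏ t ∈ D, F t, ?_, ?_⟩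
  · have h1 : ∏ t ∈ D, F t ≤ (1 + (N + 1) * q) ^ D.card := by
      refine Finset.prod_le_pow_card D F _ (fun t ht => ?_)
      have := hD t ht
      show 1 + (t + 1) * q ≤ 1 + (N + 1) * q
      gcongr
    refine h1.trans (Nat.pow_le_pow_right (by omega) ?_)
    have h2 : D ⊆ Finset.range (N + 1) := fun t ht => Finset.mem_range.2 (by have := hD t ht; omega)
    simpa using Finset.card_le_card h2
  · intro t
    have hdvd : (∃ r ≤ ∏ t ∈ D, F t, ∏ t ∈ D, F t = r * (1 + (t + 1) * q)) ↔ F t ∣ ∏ t ∈ D, F t := by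
      constructor
      · rintro ⟨r, -, hr⟩
        exact ⟨r, by rw [hr, mul_comm]⟩
      · rintro ⟨r, hr⟩
        refine ⟨r, ?_, by rw [hr, mul_comm]⟩
        rw [hr]
        exact Nat.le_mul_of_pos_left r (by simp only [hF]; omega)
    unfold Mem
    rw [hdvd]
    constructor
    · rintro ⟨h1, h2⟩
      by_contra hc
      have h3 : Nat.Coprime (F t) (∏ s ∈ D, F s) := by
        refine Nat.Coprime.prod_right (fun s hs => ?_)
        have hst : s ≠ t := fun h => hc (h ▸ hs)
        have hs' := hD s hs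
        have key : ∀ a b : ℕ, a < b → b ≤ N → Nat.Coprime (F a) (F b) := by
          intro a b hab hb
          have h4 : b + 1 - (a + 1) ∣ q := Nat.dvd_factorial (by omega) (by omega)
          have := Nat.coprime_mul_succ (n := a + 1) (m := b + 1) (a := q) h4
          simpa [hF, add_comm] using this
        rcases Nat.lt_or_gt_of_ne hst with h | h
        · exact (key s t h h1).symm
        · exact key t s h hs'
      have h4 : F t ∣ 1 := by
        have := Nat.dvd_gcd (dvd_refl (F t)) h2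
        rwa [h3] at this
      have h5 : F t = 1 := Nat.dvd_one.1 h4
      have h6 : 0 < (t + 1) * q := by positivity
      simp only [hF] at h5
      omega
    · intro h
      exact ⟨hD t h, Finset.dvd_prod_of_mem F h⟩

/-- the resource bound -/
def bnd (N : ℕ) : ℕ := (1 + (N + 1) * (N + 1)!) ^ (N + 1) + (N + 1)! + N

theorem primrec_fac : Primrec (fun n : ℕ => n !) := by
  refine (Primrec.nat_rec₁ (f := fun n r => (n + 1) * r) 1
    (Primrec.nat_mul.comp (Primrec.succ.comp Primrec.fst) Primrec.snd)).of_eq fun n => ?_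
  induction n with
  | zero => rfl
  | succ n ih => rw [Nat.factorial_succ, ← ih]

theorem primrec_pow : Primrec₂ (fun a n : ℕ => a ^ n) := by
  have h : Primrec₂ (fun a n : ℕ => (Nat.rec 1 (fun _ r => r * a) n : ℕ)) :=
    Primrec.nat_rec (f := fun _ : ℕ => 1) (g := fun a (p : ℕ × ℕ) => p.2 * a)
      (Primrec.const 1) (Primrec.nat_mul.comp (Primrec.snd.comp Primrec.snd) Primrec.fst)
  refine h.of_eq fun a n => ?_
  induction n with
  | zero => rfl
  | succ n ih =>
    show (Nat.rec 1 (fun _ r => r * a) n : ℕ) * a = a ^ (n + 1)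
    rw [pow_succ]
    congr 1

theorem primrec_bnd : Primrec bnd := by
  have h1 : Primrec (fun N : ℕ => N + 1) := Primrec.succ
  have h2 : Primrec (fun N : ℕ => (N + 1)!) := primrec_fac.comp h1
  have h3 : Primrec (fun N : ℕ => 1 + (N + 1) * (N + 1)!) :=
    Primrec.nat_add.comp (Primrec.const 1) (Primrec.nat_mul.comp h1 h2)
  exact Primrec.nat_add.comp (Primrec.nat_add.comp (primrec_pow.comp h3 h1) h2) Primrec.id

theorem closed_of_valid {p q N : ℕ} (h : Valid p q N) : Closed (Mem p q N) := by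
  intro t ht
  obtain ⟨e, -, x, -, v, -, h1, h2⟩ := h t ht.1 ht
  exact ⟨e, x, v, h1, (just_iff (fun s hs => hs.1) e x v).1 h2⟩

theorem sound {f : ℕ → ℕ} {e k z y : ℕ} (he : HasCode f e) (hz : z.unpair.1 = e) (h : R k z y) :
    k = f z := by
  obtain ⟨p, -, q, -, N, -, hv, e', -, a, -, h1, h2⟩ := h
  have : e' = e := by rw [← hz, h1, Nat.unpair_pair]
  subst this
  exact he.1 _ (closed_of_valid hv) z k h2

theorem complete {f : ℕ → ℕ} {e : ℕ} (he : HasCode f e) : ∃ T : ℕ → ℕ, Primrec T ∧
    ∀ z, z.unpair.1 = e → ∀ y, T z ≤ y → R (f z) z y := by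
  obtain ⟨B, hB, hC⟩ := he.2
  refine ⟨fun z => bnd (B z), primrec_bnd.comp hB, fun z hz y hy => ?_⟩
  obtain ⟨D, h1, h2, h3⟩ := hC z
  obtain ⟨p, hp, hp'⟩ := exists_mem_code (B z) D h3
  have hy' : (1 + (B z + 1) * (B z + 1)!) ^ (B z + 1) + (B z + 1)! + B z ≤ y := hy
  have hM : Mem p (B z + 1)! (B z) = fun t => t ∈ D := by
    funext t
    exact propext (hp' t)
  refine ⟨p, by omega, (B z + 1)!, by omega, B z, by omega, ?_, e, ?_, z.unpair.2,
    Nat.unpair_right_le z, ?_, ?_⟩
  · intro t ht hmem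
    rw [hM] at hmem
    obtain ⟨e', x, v, h4, h5⟩ := h1 t hmem
    refine ⟨e', h4 ▸ prog_le_tr _ _ _, x, h4 ▸ in_le_tr _ _ _, v, h4 ▸ out_le_tr _ _ _, h4, ?_⟩
    rw [just_iff (fun s hs => hs.1), hM]
    exact h5
  · rw [← hz]; exact Nat.unpair_left_le z
  · rw [← hz, Nat.pair_unpair]
  · rw [hM]; exact h2

/-- the decision function of the relation `R`: it is in `ℰ²` -/
noncomputable def rfun : (Fin 3 → ℕ) → ℕ := fun v => if p2_R.choose v = 0 then 0 else 1

theorem rfun_e2 : E2 rfun := E2.sg' p2_R.choose_spec.1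

theorem rfun_values (v : Fin 3 → ℕ) : rfun v = 0 ∨ rfun v = 1 := by
  unfold rfun
  split_ifs <;> simp

theorem rfun_zero (v : Fin 3 → ℕ) : rfun v = 0 ↔ R (v 0) (v 1) (v 2) := by
  refine Iff.trans ?_ (p2_R.choose_spec.2 v)
  unfold rfun
  split_ifs with h <;> simp [h]

/-- The main step. -/
theorem main (c : ℕ ≃ ℕ) (hs : Primrec (fun a => c (c.symm a + 1)))
    (hQ : Primrec (fun v : Fin 3 → ℕ => c (rfun (fun i => c.symm (v i))))) :
    Primrec c ∧ Primrec c.symm := by
  have hc : Primrec c := by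
    refine (Primrec.nat_rec₁ (f := fun _ r => c (c.symm r + 1)) (c 0)
      (hs.comp Primrec.snd)).of_eq fun n => ?_
    induction n with
    | zero => rfl
    | succ n ih =>
      show c (c.symm (Nat.rec (c 0) (fun _ r => c (c.symm r + 1)) n) + 1) = c (n + 1)
      have ih' : (Nat.rec (c 0) (fun _ r => c (c.symm r + 1)) n : ℕ) = c n := ih
      rw [ih', Equiv.symm_apply_apply]
  refine ⟨hc, ?_⟩
  -- the function `Q`
  set Q : ℕ → ℕ := fun z => c (rfun ![c 1, z, c.symm z.unpair.2]) with hQdef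
  have hQp : Primrec Q := by
    have h1 : Primrec (fun z : ℕ => (fun i : Fin 3 => if i = 0 then c (c 1) else
        if i = 1 then c z else z.unpair.2)) := by
      refine Primrec.fin_curry.2 ?_
      exact Primrec.ite (Primrec.eq.comp Primrec.snd (Primrec.const 0)) (Primrec.const _)
        (Primrec.ite (Primrec.eq.comp Primrec.snd (Primrec.const 1)) (hc.comp Primrec.fst)
        (Primrec.snd.comp (Primrec.unpair.comp Primrec.fst)))
    refine (hQ.comp h1).of_eq fun z => ?_
    simp only [hQdef]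
    congr 2
    funext i
    fin_cases i
    · simp
    · simp
    · simp
  obtain ⟨e, he⟩ := exists_code (Primrec.nat_iff.1 hQp)
  obtain ⟨T, hT, hT'⟩ := complete he
  have key : ∀ a, c.symm a ≤ T (Nat.pair e a) := by
    intro a
    by_contra hc'
    push Not at hc'
    have hu : (Nat.pair e a).unpair.1 = e := by rw [Nat.unpair_pair]
    have hu2 : (Nat.pair e a).unpair.2 = a := by rw [Nat.unpair_pair]
    have hR := hT' _ hu _ hc'.le
    rcases rfun_values ![c 1, Nat.pair e a, c.symm a] with h0 | h0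
    · have h1 : R (c 1) (Nat.pair e a) (c.symm a) := (rfun_zero _).1 h0
      have h2 := sound he hu h1
      simp only [hQdef, hu2, h0] at h2
      exact absurd (c.injective h2) (by norm_num)
    · have h1 : Q (Nat.pair e a) = c 1 := by
        simp only [hQdef, hu2, h0]
      rw [h1] at hR
      have h2 : rfun ![c 1, Nat.pair e a, c.symm a] = 0 := (rfun_zero _).2 hR
      omega
  refine Primrec.of_graph ⟨fun a => T (Nat.pair e a), hT.comp (Primrec₂.natPair.comp
    (Primrec.const e) Primrec.id), key⟩ ?_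
  have hg : PrimrecRel (fun a b : ℕ => c b = a) :=
    Primrec.eq.comp (hc.comp Primrec.snd) Primrec.fst
  refine hg.of_eq fun a b => ?_
  constructor
  · intro h1
    rw [← h1, Equiv.symm_apply_apply]
  · intro h1
    rw [← h1, Equiv.apply_symm_apply]

end Pool.Agent.Q205.EB
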