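import Pool.Agent.Q205.EB.Ver

set_option autoImplicit false

/-!
# Programs for primitive recursive functions: soundness and completeness of the verifications
-/

namespace Pool.Agent.Q205.EB

/-- justification without bounds -/
def J (M : ℕ → Prop) (e x v : ℕ) : Prop :=
  (e = 0 ∧ v = 0) ∨ (e = 1 ∧ v = x + 1) ∨ (e = 2 ∧ v = x.unpair.1) ∨ (e = 3 ∧ v = x.unpair.2) ∨
  (∃ c d s t, e = 3 * Nat.pair c d + 4 ∧ v = Nat.pair s t ∧ M (tr c x s) ∧ M (tr d x t)) ∨
  (∃ c d u, e = 3 * Nat.pair c d + 5 ∧ M (tr d x u) ∧ M (tr c u v)) ∨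
  (∃ c d a m, e = 3 * Nat.pair c d + 6 ∧ x = Nat.pair a m ∧
    ((m = 0 ∧ M (tr c a v)) ∨ ∃ k u, m = k + 1 ∧ M (tr e (Nat.pair a k) u) ∧
      M (tr d (Nat.pair a (Nat.pair k u)) v)))

theorem J.mono {M M' : ℕ → Prop} (h : ∀ t, M t → M' t) {e x v : ℕ} (hJ : J M e x v) :
    J M' e x v := by
  rcases hJ with h1 | h1 | h1 | h1 | ⟨c, d, s, t, h1, h2, h3, h4⟩ | ⟨c, d, u, h1, h2, h3⟩ |
    ⟨c, d, a, m, h1, h2, h3⟩
  · exact Or.inl h1
  · exact Or.inr (Or.inl h1)
  · exact Or.inr (Or.inr (Or.inl h1))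
  · exact Or.inr (Or.inr (Or.inr (Or.inl h1)))
  · exact Or.inr (Or.inr (Or.inr (Or.inr (Or.inl ⟨c, d, s, t, h1, h2, h _ h3, h _ h4⟩))))
  · exact Or.inr (Or.inr (Or.inr (Or.inr (Or.inr (Or.inl ⟨c, d, u, h1, h _ h2, h _ h3⟩)))))
  · refine Or.inr (Or.inr (Or.inr (Or.inr (Or.inr (Or.inr ⟨c, d, a, m, h1, h2, ?_⟩)))))
    rcases h3 with ⟨h3, h4⟩ | ⟨k, u, h3, h4, h5⟩
    · exact Or.inl ⟨h3, h _ h4⟩
    · exact Or.inr ⟨k, u, h3, h _ h4, h _ h5⟩

theorem out_le_tr (e x v : ℕ) : v ≤ tr e x v :=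
  (Nat.right_le_pair x v).trans (Nat.right_le_pair e _)

theorem in_le_tr (e x v : ℕ) : x ≤ tr e x v :=
  (Nat.left_le_pair x v).trans (Nat.right_le_pair e _)

theorem prog_le_tr (e x v : ℕ) : e ≤ tr e x v := Nat.left_le_pair e _

theorem tr_inj {e x v e' x' v' : ℕ} (h : tr e x v = tr e' x' v') : e = e' ∧ x = x' ∧ v = v' := by
  have h1 := Nat.pair_eq_pair.1 h
  have h2 := Nat.pair_eq_pair.1 h1.2
  exact ⟨h1.1, h2.1, h2.2⟩

theorem just_iff {M : ℕ → Prop} {N : ℕ} (hN : ∀ t, M t → t ≤ N) (e x v : ℕ) :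
    Just M N e x v ↔ J M e x v := by
  constructor
  · rintro (h1 | h1 | ⟨h1, b, hb, h2⟩ | ⟨h1, a, ha, h2⟩ | ⟨c, hc, d, hd, h1, s, hs, t, ht, h2, h3, h4⟩ |
      ⟨c, hc, d, hd, h1, u, hu, h2, h3⟩ | ⟨c, hc, d, hd, h1, a, ha, m, hm, h2, h3⟩)
    · exact Or.inl h1
    · exact Or.inr (Or.inl h1)
    · exact Or.inr (Or.inr (Or.inl ⟨h1, by rw [h2, Nat.unpair_pair]⟩))
    · exact Or.inr (Or.inr (Or.inr (Or.inl ⟨h1, by rw [h2, Nat.unpair_pair]⟩)))
    · exact Or.inr (Or.inr (Or.inr (Or.inr (Or.inl ⟨c, d, s, t, h1, h2, h3, h4⟩))))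
    · exact Or.inr (Or.inr (Or.inr (Or.inr (Or.inr (Or.inl ⟨c, d, u, h1, h2, h3⟩)))))
    · refine Or.inr (Or.inr (Or.inr (Or.inr (Or.inr (Or.inr ⟨c, d, a, m, h1, h2, ?_⟩)))))
      rcases h3 with h3 | ⟨k, hk, u, hu, h3, h4, h5⟩
      · exact Or.inl h3
      · exact Or.inr ⟨k, u, h3, h4, h5⟩
  · rintro (h1 | h1 | ⟨h1, h2⟩ | ⟨h1, h2⟩ | ⟨c, d, s, t, h1, h2, h3, h4⟩ |
      ⟨c, d, u, h1, h2, h3⟩ | ⟨c, d, a, m, h1, h2, h3⟩)
    · exact Or.inl h1
    · exact Or.inr (Or.inl h1)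
    · exact Or.inr (Or.inr (Or.inl ⟨h1, x.unpair.2, Nat.unpair_right_le x,
        by rw [h2, Nat.pair_unpair]⟩))
    · exact Or.inr (Or.inr (Or.inr (Or.inl ⟨h1, x.unpair.1, Nat.unpair_left_le x,
        by rw [h2, Nat.pair_unpair]⟩)))
    · have h5 := Nat.left_le_pair c d
      have h6 := Nat.right_le_pair c d
      exact Or.inr (Or.inr (Or.inr (Or.inr (Or.inl ⟨c, by omega, d, by omega, h1, s,
        h2 ▸ Nat.left_le_pair s t, t, h2 ▸ Nat.right_le_pair s t, h2, h3, h4⟩))))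
    · have h5 := Nat.left_le_pair c d
      have h6 := Nat.right_le_pair c d
      exact Or.inr (Or.inr (Or.inr (Or.inr (Or.inr (Or.inl ⟨c, by omega, d, by omega, h1, u,
        (out_le_tr _ _ _).trans (hN _ h2), h2, h3⟩)))))
    · have h5 := Nat.left_le_pair c d
      have h6 := Nat.right_le_pair c d
      refine Or.inr (Or.inr (Or.inr (Or.inr (Or.inr (Or.inr ⟨c, by omega, d, by omega, h1, a,
        h2 ▸ Nat.left_le_pair a m, m, h2 ▸ Nat.right_le_pair a m, h2, ?_⟩)))))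
      rcases h3 with h3 | ⟨k, u, h3, h4, h5⟩
      · exact Or.inl h3
      · exact Or.inr ⟨k, by omega, u, (out_le_tr _ _ _).trans (hN _ h4), h3, h4, h5⟩

/-- a set of triples closed under justification -/
def Closed (M : ℕ → Prop) : Prop := ∀ t, M t → ∃ e x v, t = tr e x v ∧ J M e x v

theorem Closed.J {M : ℕ → Prop} (h : Closed M) {e x v : ℕ} (ht : M (tr e x v)) : J M e x v := by
  obtain ⟨e', x', v', h1, h2⟩ := h _ ht
  obtain ⟨rfl, rfl, rfl⟩ := tr_inj h1
  exact h2

/-- `e` is a program for `f` -/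
def HasCode (f : ℕ → ℕ) (e : ℕ) : Prop :=
  (∀ M, Closed M → ∀ x v, M (tr e x v) → v = f x) ∧
  ∃ B : ℕ → ℕ, Primrec B ∧ ∀ x, ∃ D : Finset ℕ, Closed (fun t => t ∈ D) ∧ tr e x (f x) ∈ D ∧
    ∀ t ∈ D, t ≤ B x

theorem primrec_tr {f g h : ℕ → ℕ} (hf : Primrec f) (hg : Primrec g) (hh : Primrec h) :
    Primrec (fun x => tr (f x) (g x) (h x)) :=
  Primrec₂.natPair.comp hf (Primrec₂.natPair.comp hg hh)

theorem closed_union {D E : Finset ℕ} (hD : Closed (fun t => t ∈ D)) (hE : Closed (fun t => t ∈ E)) :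
    Closed (fun t => t ∈ D ∪ E) := by
  intro t ht
  rcases Finset.mem_union.1 ht with h | h
  · obtain ⟨e, x, v, h1, h2⟩ := hD t h
    exact ⟨e, x, v, h1, h2.mono (fun s hs => Finset.mem_union_left _ hs)⟩
  · obtain ⟨e, x, v, h1, h2⟩ := hE t h
    exact ⟨e, x, v, h1, h2.mono (fun s hs => Finset.mem_union_right _ hs)⟩

theorem closed_insert {D : Finset ℕ} (hD : Closed (fun t => t ∈ D)) {e x v : ℕ}
    (h : J (fun t => t ∈ insert (tr e x v) D) e x v) :
    Closed (fun t => t ∈ insert (tr e x v) D) := by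
  intro t ht
  rcases Finset.mem_insert.1 ht with h1 | h1
  · exact ⟨e, x, v, h1, h⟩
  · obtain ⟨e', x', v', h2, h3⟩ := hD t h1
    exact ⟨e', x', v', h2, h3.mono (fun s hs => Finset.mem_insert_of_mem hs)⟩

theorem hasCode_base {f : ℕ → ℕ} (hf : Primrec f) {e : ℕ}
    (h1 : ∀ M x, J M e x (f x)) (h2 : ∀ M x v, J M e x v → v = f x) : HasCode f e := by
  refine ⟨fun M hM x v h => h2 M x v (hM.J h), fun x => tr e x (f x),
    primrec_tr (Primrec.const e) Primrec.id hf, fun x => ⟨{tr e x (f x)}, ?_, ?_, ?_⟩⟩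
  · intro t ht
    exact ⟨e, x, f x, Finset.mem_singleton.1 ht, h1 _ x⟩
  · exact Finset.mem_singleton_self _
  · intro t ht
    rw [Finset.mem_singleton.1 ht]

/-- all primitive recursive functions have programs -/
theorem exists_code {f : ℕ → ℕ} (hf : Nat.Primrec f) : ∃ e, HasCode f e := by
  induction hf with
  | zero =>
    refine ⟨0, hasCode_base (Primrec.const 0) (fun M x => Or.inl ⟨rfl, rfl⟩) ?_⟩
    rintro M x v (h | h | h | h | ⟨c, d, s, t, h, -⟩ | ⟨c, d, u, h, -⟩ | ⟨c, d, a, m, h, -⟩) <;>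
      omega
  | succ =>
    refine ⟨1, hasCode_base Primrec.succ (fun M x => Or.inr (Or.inl ⟨rfl, rfl⟩)) ?_⟩
    rintro M x v (h | h | h | h | ⟨c, d, s, t, h, -⟩ | ⟨c, d, u, h, -⟩ | ⟨c, d, a, m, h, -⟩) <;>
      omega
  | left =>
    refine ⟨2, hasCode_base (Primrec.fst.comp Primrec.unpair)
      (fun M x => Or.inr (Or.inr (Or.inl ⟨rfl, rfl⟩))) ?_⟩
    rintro M x v (h | h | h | h | ⟨c, d, s, t, h, -⟩ | ⟨c, d, u, h, -⟩ | ⟨c, d, a, m, h, -⟩) <;>
      first | exact h.2 | omega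
  | right =>
    refine ⟨3, hasCode_base (Primrec.snd.comp Primrec.unpair)
      (fun M x => Or.inr (Or.inr (Or.inr (Or.inl ⟨rfl, rfl⟩)))) ?_⟩
    rintro M x v (h | h | h | h | ⟨c, d, s, t, h, -⟩ | ⟨c, d, u, h, -⟩ | ⟨c, d, a, m, h, -⟩) <;>
      first | exact h.2 | omega
  | @pair f g hf hg ihf ihg =>
    obtain ⟨c, hc, Bc, hBc, hc'⟩ := ihf
    obtain ⟨d, hd, Bd, hBd, hd'⟩ := ihg
    have hf1 : Primrec f := Primrec.nat_iff.2 hf
    have hg1 : Primrec g := Primrec.nat_iff.2 hg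
    set e := 3 * Nat.pair c d + 4 with he
    refine ⟨e, ?_, fun x => Bc x + Bd x + tr e x (Nat.pair (f x) (g x)), ?_, ?_⟩
    · intro M hM x v h
      rcases hM.J h with h1 | h1 | h1 | h1 | ⟨c', d', s, t, h1, h2, h3, h4⟩ | ⟨c', d', u, h1, -⟩ |
        ⟨c', d', a, m, h1, -⟩
      · omega
      · omega
      · omega
      · omega
      · obtain ⟨rfl, rfl⟩ := Nat.pair_eq_pair.1 (show Nat.pair c d = Nat.pair c' d' by omega)
        rw [h2, hc M hM _ _ h3, hd M hM _ _ h4]
      · omega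
      · omega
    · exact Primrec.nat_add.comp (Primrec.nat_add.comp hBc hBd)
        (primrec_tr (Primrec.const e) Primrec.id (Primrec₂.natPair.comp hf1 hg1))
    · intro x
      obtain ⟨D, h1, h2, h3⟩ := hc' x
      obtain ⟨E, h4, h5, h6⟩ := hd' x
      refine ⟨insert (tr e x (Nat.pair (f x) (g x))) (D ∪ E), closed_insert (closed_union h1 h4) ?_,
        Finset.mem_insert_self _ _, ?_⟩
      · refine Or.inr (Or.inr (Or.inr (Or.inr (Or.inl ⟨c, d, f x, g x, he, rfl, ?_, ?_⟩))))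
        · exact Finset.mem_insert_of_mem (Finset.mem_union_left _ h2)
        · exact Finset.mem_insert_of_mem (Finset.mem_union_right _ h5)
      · intro t ht
        show t ≤ Bc x + Bd x + tr e x (Nat.pair (f x) (g x))
        rcases Finset.mem_insert.1 ht with h | h
        · rw [h]; exact Nat.le_add_left _ _
        · rcases Finset.mem_union.1 h with h | h
          · have := h3 t h; omega
          · have := h6 t h; omega
  | @comp f g hf hg ihf ihg =>
    obtain ⟨c, hc, Bc, hBc, hc'⟩ := ihf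
    obtain ⟨d, hd, Bd, hBd, hd'⟩ := ihg
    have hf1 : Primrec f := Primrec.nat_iff.2 hf
    have hg1 : Primrec g := Primrec.nat_iff.2 hg
    set e := 3 * Nat.pair c d + 5 with he
    refine ⟨e, ?_, fun x => Bc (g x) + Bd x + tr e x (f (g x)), ?_, ?_⟩
    · intro M hM x v h
      rcases hM.J h with h1 | h1 | h1 | h1 | ⟨c', d', s, t, h1, -⟩ | ⟨c', d', u, h1, h2, h3⟩ |
        ⟨c', d', a, m, h1, -⟩
      · omega
      · omega
      · omega
      · omega
      · omega
      · obtain ⟨rfl, rfl⟩ := Nat.pair_eq_pair.1 (show Nat.pair c d = Nat.pair c' d' by omega)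
        rw [hc M hM _ _ h3, hd M hM _ _ h2]
      · omega
    · exact Primrec.nat_add.comp (Primrec.nat_add.comp (hBc.comp hg1) hBd)
        (primrec_tr (Primrec.const e) Primrec.id (hf1.comp hg1))
    · intro x
      obtain ⟨D, h1, h2, h3⟩ := hc' (g x)
      obtain ⟨E, h4, h5, h6⟩ := hd' x
      refine ⟨insert (tr e x (f (g x))) (D ∪ E), closed_insert (closed_union h1 h4) ?_,
        Finset.mem_insert_self _ _, ?_⟩
      · refine Or.inr (Or.inr (Or.inr (Or.inr (Or.inr (Or.inl ⟨c, d, g x, he, ?_, ?_⟩)))))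
        · exact Finset.mem_insert_of_mem (Finset.mem_union_right _ h5)
        · exact Finset.mem_insert_of_mem (Finset.mem_union_left _ h2)
      · intro t ht
        show t ≤ Bc (g x) + Bd x + tr e x (f (g x))
        rcases Finset.mem_insert.1 ht with h | h
        · rw [h]; exact Nat.le_add_left _ _
        · rcases Finset.mem_union.1 h with h | h
          · have := h3 t h; omega
          · have := h6 t h; omega
  | @prec f g hf hg ihf ihg =>
    obtain ⟨c, hc, Bc, hBc, hc'⟩ := ihf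
    obtain ⟨d, hd, Bd, hBd, hd'⟩ := ihg
    have hf1 : Primrec f := Primrec.nat_iff.2 hf
    have hg1 : Primrec g := Primrec.nat_iff.2 hg
    set e := 3 * Nat.pair c d + 6 with he
    set H : ℕ → ℕ → ℕ := fun a m => Nat.rec (f a) (fun y IH => g (Nat.pair a (Nat.pair y IH))) m
      with hH
    have hH0 : ∀ a, H a 0 = f a := fun a => rfl
    have hHs : ∀ a k, H a (k + 1) = g (Nat.pair a (Nat.pair k (H a k))) := fun a k => rfl
    have hun : ∀ x, Nat.unpaired (fun z n => Nat.rec (f z) (fun y IH =>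
        g (Nat.pair z (Nat.pair y IH))) n) x = H x.unpair.1 x.unpair.2 := fun x => rfl
    set Bt : ℕ → ℕ → ℕ := fun a m => Nat.rec (Bc a + tr e (Nat.pair a 0) (H a 0))
      (fun k r => r + Bd (Nat.pair a (Nat.pair k (H a k))) + tr e (Nat.pair a (k + 1)) (H a (k + 1)))
      m with hBt
    have hBt0 : ∀ a, Bt a 0 = Bc a + tr e (Nat.pair a 0) (H a 0) := fun a => rfl
    have hBts : ∀ a k, Bt a (k + 1) = Bt a k + Bd (Nat.pair a (Nat.pair k (H a k))) +
      tr e (Nat.pair a (k + 1)) (H a (k + 1)) := fun a k => rfl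
    refine ⟨e, ?_, fun x => Bt x.unpair.1 x.unpair.2, ?_, ?_⟩
    · intro M hM x v h
      rw [hun]
      obtain ⟨a, m, rfl⟩ : ∃ a m, x = Nat.pair a m := ⟨_, _, (Nat.pair_unpair x).symm⟩
      rw [Nat.unpair_pair]
      show v = H a m
      induction m generalizing v with
      | zero =>
        rcases hM.J h with h1 | h1 | h1 | h1 | ⟨c', d', s, t, h1, -⟩ | ⟨c', d', u, h1, -⟩ |
          ⟨c', d', a', m', h1, h2, h3⟩
        · omega
        · omega
        · omega
        · omega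
        · omega
        · omega
        · obtain ⟨rfl, rfl⟩ := Nat.pair_eq_pair.1 (show Nat.pair c d = Nat.pair c' d' by omega)
          obtain ⟨rfl, rfl⟩ := Nat.pair_eq_pair.1 h2
          rcases h3 with ⟨-, h3⟩ | ⟨k, u, h3, -⟩
          · exact hc M hM _ _ h3
          · omega
      | succ m ih =>
        rcases hM.J h with h1 | h1 | h1 | h1 | ⟨c', d', s, t, h1, -⟩ | ⟨c', d', u, h1, -⟩ |
          ⟨c', d', a', m', h1, h2, h3⟩
        · omega
        · omega
        · omega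
        · omega
        · omega
        · omega
        · obtain ⟨rfl, rfl⟩ := Nat.pair_eq_pair.1 (show Nat.pair c d = Nat.pair c' d' by omega)
          obtain ⟨rfl, rfl⟩ := Nat.pair_eq_pair.1 h2
          rcases h3 with ⟨h3, -⟩ | ⟨k, u, h3, h4, h5⟩
          · omega
          · obtain rfl : k = m := by omega
            rw [hHs, ← ih u h4]
            exact hd M hM _ _ h5
    · have hHp : Primrec₂ H := by
        refine Primrec.nat_rec (f := f) (g := fun a (p : ℕ × ℕ) => g (Nat.pair a (Nat.pair p.1 p.2)))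
          hf1 (hg1.comp (Primrec₂.natPair.comp Primrec.fst (Primrec₂.natPair.comp
            (Primrec.fst.comp Primrec.snd) (Primrec.snd.comp Primrec.snd))))
      have hBp : Primrec₂ Bt := by
        refine Primrec.nat_rec (f := fun a => Bc a + tr e (Nat.pair a 0) (H a 0))
          (g := fun a (p : ℕ × ℕ) => p.2 + Bd (Nat.pair a (Nat.pair p.1 (H a p.1))) +
            tr e (Nat.pair a (p.1 + 1)) (H a (p.1 + 1))) ?_ ?_
        · exact Primrec.nat_add.comp hBc (primrec_tr (Primrec.const e)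
            (Primrec₂.natPair.comp Primrec.id (Primrec.const 0)) (hHp.comp Primrec.id
              (Primrec.const 0)))
        · have ha : Primrec (fun q : ℕ × ℕ × ℕ => q.1) := Primrec.fst
          have hk : Primrec (fun q : ℕ × ℕ × ℕ => q.2.1) := Primrec.fst.comp Primrec.snd
          have hr : Primrec (fun q : ℕ × ℕ × ℕ => q.2.2) := Primrec.snd.comp Primrec.snd
          have hk1 : Primrec (fun q : ℕ × ℕ × ℕ => q.2.1 + 1) := Primrec.succ.comp hk
          refine Primrec.nat_add.comp (Primrec.nat_add.comp hr (hBd.comp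
            (Primrec₂.natPair.comp ha (Primrec₂.natPair.comp hk (hHp.comp ha hk))))) ?_
          exact Primrec₂.natPair.comp (Primrec.const e) (Primrec₂.natPair.comp
            (Primrec₂.natPair.comp ha hk1) (hHp.comp ha hk1))
      exact hBp.comp (Primrec.fst.comp Primrec.unpair) (Primrec.snd.comp Primrec.unpair)
    · intro x
      rw [hun]
      obtain ⟨a, m, rfl⟩ : ∃ a m, x = Nat.pair a m := ⟨_, _, (Nat.pair_unpair x).symm⟩
      show ∃ D : Finset ℕ, Closed (fun t => t ∈ D) ∧ tr e (Nat.pair a m)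
        (H (Nat.unpair (Nat.pair a m)).1 (Nat.unpair (Nat.pair a m)).2) ∈ D ∧
        ∀ t ∈ D, t ≤ Bt (Nat.unpair (Nat.pair a m)).1 (Nat.unpair (Nat.pair a m)).2
      rw [Nat.unpair_pair]
      show ∃ D : Finset ℕ, Closed (fun t => t ∈ D) ∧ tr e (Nat.pair a m) (H a m) ∈ D ∧
        ∀ t ∈ D, t ≤ Bt a m
      induction m with
      | zero =>
        obtain ⟨D, h1, h2, h3⟩ := hc' a
        refine ⟨insert (tr e (Nat.pair a 0) (H a 0)) D, closed_insert h1 ?_,
          Finset.mem_insert_self _ _, ?_⟩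
        · refine Or.inr (Or.inr (Or.inr (Or.inr (Or.inr (Or.inr ⟨c, d, a, 0, he, rfl,
            Or.inl ⟨rfl, ?_⟩⟩)))))
          exact Finset.mem_insert_of_mem h2
        · intro t ht
          rw [hBt0]
          rcases Finset.mem_insert.1 ht with h | h
          · rw [h]; exact Nat.le_add_left _ _
          · have := h3 t h; omega
      | succ m ih =>
        obtain ⟨D, h1, h2, h3⟩ := ih
        obtain ⟨E, h4, h5, h6⟩ := hd' (Nat.pair a (Nat.pair m (H a m)))
        refine ⟨insert (tr e (Nat.pair a (m + 1)) (H a (m + 1))) (D ∪ E),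
          closed_insert (closed_union h1 h4) ?_, Finset.mem_insert_self _ _, ?_⟩
        · refine Or.inr (Or.inr (Or.inr (Or.inr (Or.inr (Or.inr ⟨c, d, a, m + 1, he, rfl,
            Or.inr ⟨m, H a m, rfl, ?_, ?_⟩⟩)))))
          · exact Finset.mem_insert_of_mem (Finset.mem_union_left _ h2)
          · exact Finset.mem_insert_of_mem (Finset.mem_union_right _ h5)
        · intro t ht
          rw [hBts]
          rcases Finset.mem_insert.1 ht with h | h
          · rw [h]; exact Nat.le_add_left _ _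
          · rcases Finset.mem_union.1 h with h | h
            · have := h3 t h; omega
            · have := h6 t h; omega

end Pool.Agent.Q205.EB
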