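import Mathlib

set_option autoImplicit false

/-!
# The second Grzegorczyk class: closure properties
-/

namespace Pool.Agent.Q205.EB

/-- Primitive recursion: `primRec f g (k, x)` is defined by `h (0, x) = f x` and
`h (k + 1, x) = g (k, h (k, x), x)`. -/
def primRec {n : ℕ} (f : (Fin n → ℕ) → ℕ) (g : (Fin (n + 2) → ℕ) → ℕ) (v : Fin (n + 1) → ℕ) : ℕ :=
  Nat.rec (f (Fin.tail v)) (fun k r => g (Fin.cons k (Fin.cons r (Fin.tail v)))) (v 0)

/-- The second Grzegorczyk class `ℰ²`: the smallest class of functions `ℕⁿ → ℕ` which contains zero,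
successor, the projections, addition and multiplication and is closed under composition and bounded
primitive recursion. -/
inductive E2 : {n : ℕ} → ((Fin n → ℕ) → ℕ) → Prop
  | zero : E2 (fun _ : Fin 0 → ℕ => 0)
  | succ : E2 (fun v : Fin 1 → ℕ => v 0 + 1)
  | proj {n : ℕ} (i : Fin n) : E2 (fun v => v i)
  | add : E2 (fun v : Fin 2 → ℕ => v 0 + v 1)
  | mul : E2 (fun v : Fin 2 → ℕ => v 0 * v 1)
  | comp {n m : ℕ} (f : (Fin m → ℕ) → ℕ) (g : Fin m → (Fin n → ℕ) → ℕ) :
      E2 f → (∀ i, E2 (g i)) → E2 (fun v => f (fun i => g i v))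
  | prec {n : ℕ} (f : (Fin n → ℕ) → ℕ) (g : (Fin (n + 2) → ℕ) → ℕ) (b : (Fin (n + 1) → ℕ) → ℕ) :
      E2 f → E2 g → E2 b → (∀ v, primRec f g v ≤ b v) → E2 (primRec f g)

namespace E2

variable {n : ℕ}

theorem congr {f g : (Fin n → ℕ) → ℕ} (hf : E2 f) (h : ∀ v, g v = f v) : E2 g := by
  have : g = f := funext h
  rw [this]
  exact hf

theorem zero' : E2 (fun _ : Fin n → ℕ => 0) :=
  (E2.comp (fun _ : Fin 0 → ℕ => 0) (fun i => i.elim0) E2.zero (fun i => i.elim0))

theorem comp1 {f : (Fin 1 → ℕ) → ℕ} {g : (Fin n → ℕ) → ℕ} (hf : E2 f) (hg : E2 g) :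
    E2 (fun v => f (fun _ => g v)) :=
  E2.comp f (fun _ => g) hf (fun _ => hg)

theorem comp2 {f : (Fin 2 → ℕ) → ℕ} {g h : (Fin n → ℕ) → ℕ} (hf : E2 f) (hg : E2 g) (hh : E2 h) :
    E2 (fun v => f ![g v, h v]) := by
  refine (E2.comp f (fun i => ![g, h] i) hf (fun i => ?_)).congr (fun v => ?_)
  · fin_cases i
    · exact hg
    · exact hh
  · congr 1
    funext i
    fin_cases i <;> rfl

theorem succ' {f : (Fin n → ℕ) → ℕ} (hf : E2 f) : E2 (fun v => f v + 1) := comp1 E2.succ hf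

theorem const : ∀ k : ℕ, E2 (fun _ : Fin n → ℕ => k)
  | 0 => zero'
  | k + 1 => succ' (const k)

theorem add' {f g : (Fin n → ℕ) → ℕ} (hf : E2 f) (hg : E2 g) : E2 (fun v => f v + g v) :=
  comp2 E2.add hf hg

theorem mul' {f g : (Fin n → ℕ) → ℕ} (hf : E2 f) (hg : E2 g) : E2 (fun v => f v * g v) :=
  comp2 E2.mul hf hg

/-- substitution of a tuple with a new first coordinate -/
theorem subst {f : (Fin (n + 1) → ℕ) → ℕ} {m : ℕ} {g : (Fin m → ℕ) → ℕ}
    {p : Fin n → (Fin m → ℕ) → ℕ} (hf : E2 f) (hg : E2 g) (hp : ∀ i, E2 (p i)) :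
    E2 (fun v => f (Fin.cons (g v) (fun i => p i v))) := by
  refine (E2.comp f (fun i => (Fin.cons g p : Fin (n + 1) → (Fin m → ℕ) → ℕ) i) hf
    (fun i => ?_)).congr (fun v => ?_)
  · refine Fin.cases ?_ (fun j => ?_) i
    · exact hg
    · exact hp j
  · congr 1
    funext i
    refine Fin.cases ?_ (fun j => ?_) i
    · rfl
    · rfl

theorem sg : E2 (fun v : Fin 1 → ℕ => if v 0 = 0 then 0 else 1) := by
  refine (E2.prec (n := 0) (fun _ => 0) (fun _ => 1) (fun _ => 1) zero' (const 1) (const 1)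
    (fun v => ?_)).congr (fun v => ?_)
  · unfold primRec
    cases v 0 <;> simp
  · unfold primRec
    cases h : v 0 <;> simp

theorem nsg : E2 (fun v : Fin 1 → ℕ => if v 0 = 0 then 1 else 0) := by
  refine (E2.prec (n := 0) (fun _ => 1) (fun _ => 0) (fun _ => 1) (const 1) zero' (const 1)
    (fun v => ?_)).congr (fun v => ?_)
  · unfold primRec
    cases v 0 <;> simp
  · unfold primRec
    cases h : v 0 <;> simp

theorem pred : E2 (fun v : Fin 1 → ℕ => v 0 - 1) := by
  refine (E2.prec (n := 0) (fun _ => 0) (fun w => w 0) (fun v => v 0) zero' (E2.proj 0) (E2.proj 0)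
    (fun v => ?_)).congr (fun v => ?_)
  · unfold primRec
    cases h : v 0
    · simp
    · simp
  · unfold primRec
    cases h : v 0 <;> simp

/-- `x - y` with arguments `(y, x)` -/
theorem sub_aux : E2 (fun v : Fin 2 → ℕ => v 1 - v 0) := by
  have key : ∀ v : Fin 2 → ℕ, primRec (n := 1) (fun v => v 0) (fun w => w 1 - 1) v = v 1 - v 0 := by
    intro v
    unfold primRec
    generalize hk : v 0 = k
    induction k generalizing v with
    | zero => simp [Fin.tail]
    | succ k ih =>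
      have := ih ![k, v 1] (by simp)
      simp only [Fin.tail] at this ⊢
      simp only [Matrix.cons_val_one] at this
      have e : (Nat.rec (v (Fin.succ 0))
          (fun k r => (Fin.cons k (Fin.cons r fun i => v i.succ) : Fin 3 → ℕ) 1 - 1) k : ℕ)
          = v 1 - k := by
        simpa using this
      show (Fin.cons k (Fin.cons _ _) : Fin 3 → ℕ) 1 - 1 = _
      change (Nat.rec (v (Fin.succ 0))
          (fun k r => (Fin.cons k (Fin.cons r fun i => v i.succ) : Fin 3 → ℕ) 1 - 1) k : ℕ) - 1 = _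
      rw [e]
      omega
  refine (E2.prec (n := 1) (fun v => v 0) (fun w => w 1 - 1) (fun v => v 1) (E2.proj 0)
    (comp1 (f := fun v => v 0 - 1) pred (E2.proj 1)) (E2.proj 1) (fun v => ?_)).congr (fun v => ?_)
  · rw [key]; omega
  · rw [key]

theorem sub' {f g : (Fin n → ℕ) → ℕ} (hf : E2 f) (hg : E2 g) : E2 (fun v => f v - g v) :=
  comp2 sub_aux hg hf

theorem sg' {f : (Fin n → ℕ) → ℕ} (hf : E2 f) : E2 (fun v => if f v = 0 then 0 else 1) :=
  comp1 sg hf

theorem nsg' {f : (Fin n → ℕ) → ℕ} (hf : E2 f) : E2 (fun v => if f v = 0 then 1 else 0) :=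
  comp1 nsg hf

end E2

/-- predicates decided by a function in `ℰ²` (value zero: true) -/
def P2 {n : ℕ} (P : (Fin n → ℕ) → Prop) : Prop := ∃ f, E2 f ∧ ∀ v, f v = 0 ↔ P v

namespace P2

variable {n : ℕ}

theorem eq {f g : (Fin n → ℕ) → ℕ} (hf : E2 f) (hg : E2 g) : P2 (fun v => f v = g v) :=
  ⟨_, (hf.sub' hg).add' (hg.sub' hf), fun v => by omega⟩

theorem le {f g : (Fin n → ℕ) → ℕ} (hf : E2 f) (hg : E2 g) : P2 (fun v => f v ≤ g v) :=
  ⟨_, hf.sub' hg, fun v => by omega⟩

theorem lt {f g : (Fin n → ℕ) → ℕ} (hf : E2 f) (hg : E2 g) : P2 (fun v => f v < g v) :=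
  ⟨_, (hf.succ').sub' hg, fun v => by omega⟩

theorem and {P Q : (Fin n → ℕ) → Prop} (hP : P2 P) (hQ : P2 Q) : P2 (fun v => P v ∧ Q v) := by
  obtain ⟨f, hf, hf'⟩ := hP
  obtain ⟨g, hg, hg'⟩ := hQ
  refine ⟨_, hf.add' hg, fun v => ?_⟩
  show f v + g v = 0 ↔ P v ∧ Q v
  rw [← hf', ← hg']
  omega

theorem or {P Q : (Fin n → ℕ) → Prop} (hP : P2 P) (hQ : P2 Q) : P2 (fun v => P v ∨ Q v) := by
  obtain ⟨f, hf, hf'⟩ := hP
  obtain ⟨g, hg, hg'⟩ := hQ
  refine ⟨_, hf.mul' hg, fun v => ?_⟩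
  show f v * g v = 0 ↔ P v ∨ Q v
  rw [← hf', ← hg', mul_eq_zero]

theorem not {P : (Fin n → ℕ) → Prop} (hP : P2 P) : P2 (fun v => ¬ P v) := by
  obtain ⟨f, hf, hf'⟩ := hP
  refine ⟨_, hf.nsg', fun v => ?_⟩
  show (if f v = 0 then 1 else 0) = 0 ↔ ¬ P v
  rw [← hf']
  by_cases h : f v = 0 <;> simp [h]

theorem imp {P Q : (Fin n → ℕ) → Prop} (hP : P2 P) (hQ : P2 Q) : P2 (fun v => P v → Q v) := by
  obtain ⟨f, hf, hf'⟩ := hP.not.or hQ
  exact ⟨f, hf, fun v => (hf' v).trans imp_iff_not_or.symm⟩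

theorem congr {P Q : (Fin n → ℕ) → Prop} (hP : P2 P) (h : ∀ v, Q v ↔ P v) : P2 Q := by
  obtain ⟨f, hf, hf'⟩ := hP
  exact ⟨f, hf, fun v => by rw [h, hf']⟩

/-- bounded existential quantifier -/
theorem exle {P : ℕ → (Fin n → ℕ) → Prop} {t : (Fin n → ℕ) → ℕ} (ht : E2 t)
    (hP : P2 (fun w : Fin (n + 1) → ℕ => P (w 0) (Fin.tail w))) :
    P2 (fun v => ∃ k ≤ t v, P k v) := by
  obtain ⟨p, hp, hp'⟩ := hP
  -- `F v = sg p(0, v)`, `G (k, r, v) = r * sg p(k+1, v)`
  set F : (Fin n → ℕ) → ℕ := fun v => if p (Fin.cons 0 (fun i => v i)) = 0 then 0 else 1 with hF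
  set G : (Fin (n + 2) → ℕ) → ℕ := fun w =>
    w 1 * (if p (Fin.cons (w 0 + 1) (fun i => w i.succ.succ)) = 0 then 0 else 1) with hG
  have hFE : E2 F := (E2.subst hp E2.zero' (fun i => E2.proj i)).sg'
  have hGE : E2 G := (E2.proj 1).mul'
    ((E2.subst hp (E2.proj 0).succ' (fun i => E2.proj i.succ.succ)).sg')
  have key : ∀ v : Fin n → ℕ, ∀ k : ℕ, (primRec F G (Fin.cons k v) ≤ 1) ∧
      (primRec F G (Fin.cons k v) = 0 ↔ ∃ j ≤ k, P j v) := by
    intro v k
    induction k with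
    | zero =>
      have e : primRec F G (Fin.cons 0 v) = F v := by
        unfold primRec
        simp [Fin.tail_cons]
      have e2 : (p (Fin.cons 0 v) = 0 ↔ P 0 v) := by
        rw [hp']
        simp [Fin.tail_cons]
      rw [e]
      simp only [hF]
      constructor
      · split_ifs <;> simp
      · constructor
        · intro h
          refine ⟨0, le_rfl, e2.1 ?_⟩
          by_contra hc
          rw [if_neg hc] at h
          exact one_ne_zero h
        · rintro ⟨j, hj, hP⟩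
          obtain rfl : j = 0 := by omega
          rw [if_pos (e2.2 hP)]
    | succ k ih =>
      have e : primRec F G (Fin.cons (k + 1) v) = primRec F G (Fin.cons k v) *
          (if p (Fin.cons (k + 1) v) = 0 then 0 else 1) := by
        unfold primRec
        simp only [Fin.cons_zero, Fin.tail_cons]
        show G (Fin.cons k (Fin.cons _ v)) = _
        simp only [hG]
        rfl
      have e2 : (p (Fin.cons (k + 1) v) = 0 ↔ P (k + 1) v) := by
        rw [hp']
        simp [Fin.tail_cons]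
      rw [e]
      constructor
      · split_ifs <;> simp [ih.1]
      · rw [mul_eq_zero, ih.2]
        constructor
        · rintro (⟨j, hj, hP⟩ | h)
          · exact ⟨j, by omega, hP⟩
          · refine ⟨k + 1, le_rfl, e2.1 ?_⟩
            by_contra hc
            rw [if_neg hc] at h
            exact one_ne_zero h
        · rintro ⟨j, hj, hP⟩
          rcases Nat.lt_or_ge j (k + 1) with h | h
          · exact Or.inl ⟨j, by omega, hP⟩
          · obtain rfl : j = k + 1 := by omega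
            right
            rw [if_pos (e2.2 hP)]
  have hrec : E2 (primRec F G) := by
    refine E2.prec F G (fun _ => 1) hFE hGE (E2.const 1) (fun v => ?_)
    have := (key (Fin.tail v) (v 0)).1
    rwa [Fin.cons_self_tail] at this
  refine ⟨_, E2.subst hrec ht (fun i => E2.proj i), fun v => ?_⟩
  exact (key v (t v)).2

/-- bounded universal quantifier -/
theorem alle {P : ℕ → (Fin n → ℕ) → Prop} {t : (Fin n → ℕ) → ℕ} (ht : E2 t)
    (hP : P2 (fun w : Fin (n + 1) → ℕ => P (w 0) (Fin.tail w))) :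
    P2 (fun v => ∀ k ≤ t v, P k v) := by
  refine ((exle (P := fun k v => ¬ P k v) ht hP.not).not).congr (fun v => ?_)
  push Not
  rfl

/-- definition by cases -/
theorem _root_.Pool.Agent.Q205.EB.E2.ite {P : (Fin n → ℕ) → Prop} [DecidablePred P]
    {f g : (Fin n → ℕ) → ℕ} (hP : P2 P) (hf : E2 f) (hg : E2 g) :
    E2 (fun v => if P v then f v else g v) := by
  obtain ⟨p, hp, hp'⟩ := hP
  refine ((hp.nsg'.mul' hf).add' (hp.sg'.mul' hg)).congr (fun v => ?_)
  by_cases h : P v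
  · have := (hp' v).2 h
    simp [h, this]
  · have := mt (hp' v).1 h
    simp [h, this]

end P2

/-- the pairing function -/
theorem E2.pair' {n : ℕ} {f g : (Fin n → ℕ) → ℕ} (hf : E2 f) (hg : E2 g) :
    E2 (fun v => Nat.pair (f v) (g v)) := by
  unfold Nat.pair
  exact E2.ite (P2.lt hf hg) ((hg.mul' hg).add' hf) (((hf.mul' hf).add' hf).add' hg)

end Pool.Agent.Q205.EB
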