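import Pool.Agent.Q205.EB.Grz

set_option autoImplicit false

/-!
# Verification of primitive recursive computations by bounded formulas
-/

namespace Pool.Agent.Q205.EB

/-- the code of a triple (program, input, output) -/
def tr (e x v : ℕ) : ℕ := Nat.pair e (Nat.pair x v)

/-- `(e, x, v)` is justified by the set `M` of (codes of) triples; `N` bounds the quantifiers.
The programs are `0` (zero), `1` (successor), `2`, `3` (components of a pair), `3 (c, d) + 4` (pair),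
`3 (c, d) + 5` (composition), `3 (c, d) + 6` (primitive recursion). -/
def Just (M : ℕ → Prop) (N e x v : ℕ) : Prop :=
  (e = 0 ∧ v = 0) ∨ (e = 1 ∧ v = x + 1) ∨ (e = 2 ∧ ∃ b ≤ x, x = Nat.pair v b) ∨
  (e = 3 ∧ ∃ a ≤ x, x = Nat.pair a v) ∨
  (∃ c ≤ e, ∃ d ≤ e, e = 3 * Nat.pair c d + 4 ∧ ∃ s ≤ v, ∃ t ≤ v, v = Nat.pair s t ∧
    M (tr c x s) ∧ M (tr d x t)) ∨
  (∃ c ≤ e, ∃ d ≤ e, e = 3 * Nat.pair c d + 5 ∧ ∃ u ≤ N, M (tr d x u) ∧ M (tr c u v)) ∨
  (∃ c ≤ e, ∃ d ≤ e, e = 3 * Nat.pair c d + 6 ∧ ∃ a ≤ x, ∃ m ≤ x, x = Nat.pair a m ∧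
    ((m = 0 ∧ M (tr c a v)) ∨ ∃ k ≤ m, ∃ u ≤ N, m = k + 1 ∧ M (tr e (Nat.pair a k) u) ∧
      M (tr d (Nat.pair a (Nat.pair k u)) v)))

/-- the finite set coded by `p`, `q`, `N` -/
def Mem (p q N t : ℕ) : Prop := t ≤ N ∧ ∃ r ≤ p, p = r * (1 + (t + 1) * q)

/-- the set coded by `p`, `q`, `N` is closed under justification -/
def Valid (p q N : ℕ) : Prop :=
  ∀ t ≤ N, Mem p q N t → ∃ e ≤ t, ∃ x ≤ t, ∃ v ≤ t, t = tr e x v ∧ Just (Mem p q N) N e x v

/-- within `y` there is a verification that the program `z.1` has the value `k` at `z` -/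
def R (k z y : ℕ) : Prop :=
  ∃ p ≤ y, ∃ q ≤ y, ∃ N ≤ y, Valid p q N ∧ ∃ e ≤ z, ∃ a ≤ z, z = Nat.pair e a ∧
    Mem p q N (tr e z k)

theorem p2_mem {n : ℕ} {p q N t : (Fin n → ℕ) → ℕ} (hp : E2 p) (hq : E2 q) (hN : E2 N)
    (ht : E2 t) : P2 (fun v => Mem (p v) (q v) (N v) (t v)) := by
  have h0 : P2 (fun v : Fin 4 → ℕ => Mem (v 0) (v 1) (v 2) (v 3)) := by
    unfold Mem
    refine P2.and (P2.le (E2.proj _) (E2.proj _)) (P2.exle (E2.proj _) ?_)
    exact P2.eq (E2.proj (n := 5) 1) ((E2.proj 0).mul' ((E2.const 1).add'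
      (((E2.proj 4).add' (E2.const 1)).mul' (E2.proj 2))))
  obtain ⟨f, hf, hf'⟩ := h0
  refine ⟨_, E2.comp f ![p, q, N, t] hf (fun i => ?_), fun v => ?_⟩
  · fin_cases i
    · exact hp
    · exact hq
    · exact hN
    · exact ht
  · rw [hf']
    rfl

theorem e2_tr {n : ℕ} {e x v : (Fin n → ℕ) → ℕ} (he : E2 e) (hx : E2 x) (hv : E2 v) :
    E2 (fun w => tr (e w) (x w) (v w)) := he.pair' (hx.pair' hv)

theorem p2_R : P2 (fun v : Fin 3 → ℕ => R (v 0) (v 1) (v 2)) := by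
  unfold R Valid Just
  repeat' first
    | exact E2.proj _
    | exact E2.const _
    | apply p2_mem
    | apply e2_tr
    | apply E2.pair'
    | apply P2.exle
    | apply P2.alle
    | apply P2.and
    | apply P2.or
    | apply P2.imp
    | apply P2.eq
    | apply P2.le
    | apply E2.add'
    | apply E2.mul'

end Pool.Agent.Q205.EB
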